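import Pool.Agent.PFD.StmtsD4

/-!
Squad PFD, row BDV (helper13): base change of the derivation.
-/

set_option autoImplicit false

open scoped BigOperators TensorProduct

noncomputable section

namespace Pool.Agent.Helper13_PFD

open Pool.Agent.PFD Pool.Agent.PFD.D4

theorem bdv : BdvStmt := by
  intro R K Γ _ _ _ _ _ v P N hv hP hN
  refine ⟨LinearMap.baseChange K v, fun k a => LinearMap.baseChange_tmul _ _ _, ?_, ?_⟩
  · intro a b
    induction a using TensorProduct.induction_on with
    | zero => simp only [zero_mul, map_zero, add_zero]
    | add x y hx hy =>
      rw [add_mul, map_add, hx, hy, map_add, add_mul, add_mul]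
      abel
    | tmul k a =>
      induction b using TensorProduct.induction_on with
      | zero => simp only [mul_zero, map_zero, add_zero]
      | add x y hx hy =>
        rw [mul_add, map_add, hx, hy, map_add, mul_add, mul_add]
        abel
      | tmul k' a' =>
        simp only [Algebra.TensorProduct.tmul_mul_tmul, LinearMap.baseChange_tmul, hv,
          TensorProduct.tmul_add]
  · intro b
    let T : ℕ → Set (K ⊗[R] Γ) := fun n =>
      {x | ∃ y : ℕ → Γ, (∀ i, y i ∈ P) ∧ x = (1 : K) ⊗ₜ[R] ((List.range n).map y).prod}
    have h1 : LinearMap.baseChange K v b ∈ Submodule.span K (T 1) := by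
      induction b using TensorProduct.induction_on with
      | zero => rw [map_zero]; exact Submodule.zero_mem _
      | add x y hx hy => rw [map_add]; exact Submodule.add_mem _ hx hy
      | tmul k a =>
        have h : LinearMap.baseChange K v (k ⊗ₜ[R] a) = k • ((1 : K) ⊗ₜ[R] v a) := by
          rw [LinearMap.baseChange_tmul, TensorProduct.smul_tmul', smul_eq_mul, mul_one]
        rw [h]
        refine Submodule.smul_mem _ _ (Submodule.subset_span ⟨fun _ => v a, fun _ => hP a, ?_⟩)
        simp
    have h2 : ∀ n, (LinearMap.baseChange K v b) ^ n ∈ Submodule.span K (T n) := by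
      intro n
      induction n with
      | zero =>
        refine Submodule.subset_span ⟨fun _ => 0, fun _ => P.zero_mem, ?_⟩
        rw [pow_zero, List.range_zero, List.map_nil, List.prod_nil]
        rfl
      | succ n ih =>
        rw [pow_succ]
        have h3 := Submodule.mul_mem_mul ih h1
        rw [Submodule.span_mul_span] at h3
        refine Submodule.span_mono ?_ h3
        rintro _ ⟨_, ⟨y, hy, rfl⟩, _, ⟨z, hz, rfl⟩, rfl⟩
        refine ⟨fun i => if i = n then z 0 else y i, ?_, ?_⟩
        · intro i
          show (if i = n then z 0 else y i) ∈ P
          split_ifs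
          · exact hz 0
          · exact hy i
        · show (1 : K) ⊗ₜ[R] _ * (1 : K) ⊗ₜ[R] _ = _
          have e1 : ((List.range (n + 1)).map fun i => if i = n then z 0 else y i).prod =
              ((List.range n).map y).prod * z 0 := by
            rw [List.range_succ, List.map_append, List.prod_append]
            have e2 : (List.range n).map (fun i => if i = n then z 0 else y i) =
                (List.range n).map y := by
              refine List.map_congr_left fun i hi => ?_
              rw [List.mem_range] at hi
              rw [if_neg hi.ne]
            rw [e2]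
            simp
          have e3 : ((List.range 1).map z).prod = z 0 := by simp
          rw [Algebra.TensorProduct.tmul_mul_tmul, one_mul, e1, e3]
    refine ⟨N, ?_⟩
    have h4 := h2 N
    have h5 : T N ⊆ {0} := by
      rintro _ ⟨y, hy, rfl⟩
      rw [hN y hy, TensorProduct.tmul_zero]
      rfl
    have h6 := Submodule.span_mono (R := K) h5 h4
    rw [Submodule.span_zero_singleton] at h6
    exact (Submodule.mem_bot K).mp h6

end Pool.Agent.Helper13_PFD
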