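import Pool.Agent.PFD.StmtsD3

/-! Squad PFD, row BOX (helper13): the output of block D3. -/

noncomputable section

namespace Pool.Agent.PFD.H13

open Pool.Agent.PFD Pool.Agent.PFD.D3

/-- a basis from dual families -/
def dualBasis {R M K : Type} [CommRing R] [AddCommGroup M] [Module R M] [Fintype K]
    [DecidableEq K] (v : K → M) (f : K → (M →ₗ[R] R))
    (h1 : ∀ i j, f i (v j) = if i = j then 1 else 0) (h2 : ∀ m, ∑ i, f i m • v i = m) :
    Module.Basis K R M :=
  Module.Basis.ofEquivFun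
    { toFun := fun m i => f i m
      map_add' := fun m m' => by
        funext i
        exact map_add (f i) m m'
      map_smul' := fun r m => by
        funext i
        exact map_smul (f i) r m
      invFun := fun g => ∑ i, g i • v i
      left_inv := h2
      right_inv := fun g => by
        funext i
        show f i (∑ j, g j • v j) = g i
        rw [map_sum, Finset.sum_eq_single i]
        · rw [map_smul, h1, if_pos rfl, smul_eq_mul, mul_one]
        · intro j _ hj
          rw [map_smul, h1, if_neg (Ne.symm hj), smul_zero]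
        · intro h
          exact absurd (Finset.mem_univ i) h }

theorem dualBasis_apply {R M K : Type} [CommRing R] [AddCommGroup M] [Module R M] [Fintype K]
    [DecidableEq K] (v : K → M) (f : K → (M →ₗ[R] R))
    (h1 : ∀ i j, f i (v j) = if i = j then 1 else 0) (h2 : ∀ m, ∑ i, f i m • v i = m) (j : K) :
    dualBasis v f h1 h2 j = v j := by
  rw [dualBasis, Module.Basis.coe_ofEquivFun]
  show ∑ i, (Pi.single j (1 : R) : K → R) i • v i = v j
  rw [Finset.sum_eq_single j]
  · rw [Pi.single_eq_same, one_smul]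
  · intro i _ hi
    rw [Pi.single_eq_of_ne hi, zero_smul]
  · intro h
    exact absurd (Finset.mem_univ j) h

theorem box (hSOX : SoxStmt) (hCPB : CpbStmt) (hCPF : CpfStmt) (hCPT : CptStmt)
    (hCPE : CpeStmt) (hCPN : CpnStmt) (hCPZ : CpzStmt) : BoxStmt := by
  classical
  intro R F V E _ _ _ _ _ ℓ c o φ Va W z hW
  haveI := hW.fin
  letI fw : Fintype W := Fintype.ofFinite W
  obtain ⟨S, iS, aS, ⟨s⟩⟩ := hSOX R F V E ℓ c o φ Va W hW
  letI := s.fJ
  -- `S` is finite and free
  let bS : Module.Basis (s.J × W) R S := dualBasis (fun p => s.y p.1 * s.om p.2)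
    (fun p => s.t ∘ₗ LinearMap.mulLeft R (s.om p.2⁻¹ * s.y' p.1))
    (by
      rintro ⟨i, u⟩ ⟨j, v⟩
      show s.t (s.om u⁻¹ * s.y' i * (s.y j * s.om v)) = _
      rw [s.du]
      by_cases h : i = j ∧ u = v
      · rw [if_pos h, if_pos (Prod.ext h.1 h.2)]
      · rw [if_neg h, if_neg]
        intro h'
        exact h ⟨congrArg Prod.fst h', congrArg Prod.snd h'⟩)
    (by
      intro m
      rw [Fintype.sum_prod_type]
      exact s.h1 m)
  haveI hSfin : Module.Finite R S := Module.Finite.of_basis bS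
  haveI hSfree : Module.Free R S := Module.Free.of_basis bS
  obtain ⟨hfin, hfree⟩ := hCPB R S E (D1 o z s)
  obtain ⟨fb, hfb⟩ := hCPF R F V E S ℓ c o φ W z s
  obtain ⟨I, fI, wf, hwt, hwom⟩ := hCPT R F V E S ℓ c o φ W z s hW.sw
  obtain ⟨vc, hv1, hv2, hv3, hv4⟩ := hCPE R S E (D1 o z s) s.v s.v_mul s.v_act
  obtain ⟨Pc, hP1, hP2, hP3, hP4⟩ := hCPN R S E (D1 o z s) s.P s.N s.P_act s.P_nil
  have hcard : (Fintype.card E : F) ≠ 0 := by
    haveI := o.ch
    intro h
    rw [CharP.cast_eq_zero_iff F ℓ] at h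
    apply hW.cop
    rw [Nat.card_eq_fintype_card]
    exact h
  have hsn : ∀ (x : S) (e : E), fb.q (CP.sn (D1 o z s) x e) = CP.sn (D0 φ z) (s.fb.q x) e := by
    intro x e
    apply CP.ext
    funext g
    rw [hfb, CP.sn_f, CP.sn_f]
    by_cases hg : g = e
    · rw [if_pos hg, if_pos hg]
    · rw [if_neg hg, if_neg hg, map_zero]
  let bG : Module.Basis (I × W) R (CP (D1 o z s)) := dualBasis (fun p => wf.x p.1 * wf.om p.2)
    (fun p => wf.t ∘ₗ LinearMap.mulLeft R (wf.om p.2⁻¹ * wf.x' p.1))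
    (by
      rintro ⟨i, u⟩ ⟨j, v⟩
      show wf.t (wf.om u⁻¹ * wf.x' i * (wf.x j * wf.om v)) = _
      rw [wf.du]
      by_cases h : i = j ∧ u = v
      · rw [if_pos h, if_pos (Prod.ext h.1 h.2)]
      · rw [if_neg h, if_neg]
        intro h'
        exact h ⟨congrArg Prod.fst h', congrArg Prod.snd h'⟩)
    (by
      intro m
      rw [Fintype.sum_prod_type]
      exact wf.t1 m)
  refine ⟨CP (D1 o z s), inferInstance, inferInstance, hfin, hfree, ⟨{
    fb := fb
    om := wf.om
    om_q := ?_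
    n := CP.n (D1 o z s)
    n_one := CP.n_one
    n_mul := ?_
    n_om := ?_
    n_q := ?_
    I := I
    fi := fI
    fw := fw
    x := wf.x
    x' := wf.x'
    t := wf.t
    ts := wf.ts
    t1 := wf.t1
    t2 := wf.t2
    bs := bG
    bs_eq := ?_
    ph := wf.ph
    phb := wf.phb
    nrm := wf.nrm
    v := vc
    v_mul := hv2
    v_om := ?_
    v_n := hv3
    wt := s.wt
    wt_pos := s.wt_pos
    t_v := ?_
    P := Pc
    P_l := hP2
    P_r := hP3
    P_v := ?_
    N := s.N
    P_nil := hP4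
    ctr := ?_ }⟩⟩
  · intro w
    rw [hwom, CP.iS_apply, hsn, s.om_q]
    rfl
  · intro e g
    exact CP.n_mul_n e g
  · intro e w w' hw
    rw [hwom, hwom, CP.n_mul_iS]
    have h1 : (D1 o z s).act e (s.om w) = s.om w' := s.om_act e w w' hw
    rw [h1]
  · intro e
    show fb.q (CP.sn (D1 o z s) 1 e) = CP.sn (D0 φ z) 1 e
    rw [hsn, map_one]
  · intro i w
    exact dualBasis_apply _ _ _ _ (i, w)
  · intro w
    rw [hwom, hv4, s.v_om, map_zero]
  · intro a
    rw [hwt, hv1, s.t_v, hwt]
  · intro a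
    rw [hP1]
    intro e
    rw [hv1]
    exact s.P_v _
  · exact hCPZ R F V E S ℓ c o φ W z s fb hfb hcard

end Pool.Agent.PFD.H13
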