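import Pool.Agent.PFD.StmtsD2c

/-!
Squad PFD, row BWF (helper13).
-/

set_option autoImplicit false

open scoped BigOperators

noncomputable section

namespace Pool.Agent.Helper13_PFD

open Pool.Agent.PFD Pool.Agent.PFD.D2b

theorem bwf_fsum {W M : Type} [AddCommMonoid M] (i1 i2 : Fintype W) (f : W → M) :
    (@Finset.sum W M _ (@Finset.univ W i1) f) = @Finset.sum W M _ (@Finset.univ W i2) f := by
  rw [Subsingleton.elim i1 i2]

theorem bwf : BwfStmt := by
  classical
  intro R F V E Γ _ _ _ _ _ ℓ c o φ W fW z _ _ bo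
  let _ := bo.fi
  have h1 : ∀ x, ∑ i, ∑ w, bo.t (bo.om w⁻¹ * bo.x' i * x) • (bo.x i * bo.om w) = x := by
    intro x
    rw [← bo.t1 x]
    exact Finset.sum_congr rfl fun i _ => by rw [bo.t1 x]; exact bwf_fsum _ _ _
  have h2 : ∀ x, ∑ i, ∑ w, bo.t (x * (bo.x i * bo.om w)) • (bo.om w⁻¹ * bo.x' i) = x := by
    intro x
    rw [← bo.t2 x]
    exact Finset.sum_congr rfl fun i _ => by rw [bo.t2 x]; exact bwf_fsum _ _ _
  have hd : ∀ i j (u w : W), bo.t (bo.om u⁻¹ * bo.x' i * (bo.x j * bo.om w)) =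
      if j = i ∧ w = u then 1 else 0 := by
    intro i j u w
    have h := h1 (bo.x j * bo.om w)
    have h' : ∑ s : bo.I × W, bo.t (bo.om s.2⁻¹ * bo.x' s.1 * (bo.x j * bo.om w)) •
        bo.bs s = bo.bs (j, w) := by
      rw [Fintype.sum_prod_type, bo.bs_eq j w]
      conv_rhs => rw [← h]
      exact Finset.sum_congr rfl fun i _ => Finset.sum_congr rfl fun u _ => by rw [bo.bs_eq]
    have h3 := congrArg (fun y => bo.bs.repr y (i, u)) h'
    simp only [map_sum, map_smul, Module.Basis.repr_self, Finsupp.coe_finsetSum,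
      Finset.sum_apply, Finsupp.smul_apply, Finsupp.single_apply, smul_eq_mul, mul_ite, mul_one,
      mul_zero, Finset.sum_ite_eq', Finset.mem_univ, if_true] at h3
    rw [h3]
    simp only [Prod.mk.injEq]
  refine ⟨bo.I, bo.fi, { lam := bo.t, sym := bo.ts, om := bo.om, cf := bo.x, cf' := bo.x', h1 := h1, h2 := h2, d1 := ?_, d0 := ?_, ph := bo.ph, phb := bo.phb, nrm := bo.nrm }, rfl, rfl⟩
  · intro i w
    rw [hd, if_pos ⟨rfl, rfl⟩]
  · intro i j u w h
    rw [hd, if_neg]
    rintro ⟨rfl, rfl⟩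
    rcases h with h | h
    · exact h rfl
    · exact h rfl

end Pool.Agent.Helper13_PFD
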