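import Pool.Agent.PFD.StmtsD2b

/-! Squad PFD, row EQF (helper13): maps which are equivariant modulo `p` lift. -/

set_option autoImplicit false

namespace Pool.Agent.PFD.D2b.H13

open Pool.Agent.PFD.D2 Pool.Agent.PFD.D2b

theorem eqf : EqfStmt := by
  classical
  intro R G N Ω _ _ _ _ _ ρ p hF m hm
  let r : MulAction.orbitRel.Quotient G Ω → Ω := fun q => Quotient.out q
  have hn : ∀ q : MulAction.orbitRel.Quotient G Ω, ∃ n : N,
      (∀ s ∈ MulAction.stabilizer G (r q), ρ s n = n) ∧ ∃ x, n - m (r q) = p • x := by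
    intro q
    refine hF (MulAction.stabilizer G (r q)) (m (r q)) fun s hs => ?_
    obtain ⟨x, hx⟩ := hm s (r q)
    rw [MulAction.mem_stabilizer_iff.mp hs] at hx
    exact ⟨-x, by rw [smul_neg, ← hx]; abel⟩
  choose n hn1 hn2 using hn
  have hg : ∀ ω : Ω, ∃ g : G, g • r (Quotient.mk (MulAction.orbitRel G Ω) ω) = ω := by
    intro ω
    have h1 : (MulAction.orbitRel G Ω).r (r (Quotient.mk (MulAction.orbitRel G Ω) ω)) ω :=
      Quotient.mk_out (s := MulAction.orbitRel G Ω) ω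
    have h2 : (MulAction.orbitRel G Ω).r ω (r (Quotient.mk (MulAction.orbitRel G Ω) ω)) :=
      (MulAction.orbitRel G Ω).symm h1
    have h3 : ω ∈ MulAction.orbit G (r (Quotient.mk (MulAction.orbitRel G Ω) ω)) :=
      MulAction.orbitRel_apply.mp h2
    exact h3
  choose g hg using hg
  have hq : ∀ (h : G) (ω : Ω), Quotient.mk (MulAction.orbitRel G Ω) (h • ω) =
      Quotient.mk (MulAction.orbitRel G Ω) ω := by
    intro h ω
    refine Quotient.sound (s := MulAction.orbitRel G Ω) ?_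
    exact MulAction.mem_orbit ω h
  refine ⟨fun ω => ρ (g ω) (n (Quotient.mk (MulAction.orbitRel G Ω) ω)), ?_, ?_⟩
  · intro h ω
    show ρ (g (h • ω)) (n (Quotient.mk (MulAction.orbitRel G Ω) (h • ω))) =
      ρ h (ρ (g ω) (n (Quotient.mk (MulAction.orbitRel G Ω) ω)))
    rw [hq]
    have h1 : (h * g ω)⁻¹ * g (h • ω) ∈
        MulAction.stabilizer G (r (Quotient.mk (MulAction.orbitRel G Ω) ω)) := by
      rw [MulAction.mem_stabilizer_iff, mul_smul]
      have h2 := hg (h • ω)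
      rw [hq] at h2
      rw [h2, inv_smul_eq_iff, mul_smul, hg]
    have h2 := hn1 _ _ h1
    have h3 : g (h • ω) = (h * g ω) * ((h * g ω)⁻¹ * g (h • ω)) := by
      rw [mul_inv_cancel_left]
    rw [h3, map_mul ρ, map_mul ρ h]
    show ρ h (ρ (g ω) (ρ ((h * g ω)⁻¹ * g (h • ω)) _)) = _
    rw [h2]
  · intro ω
    obtain ⟨x, hx⟩ := hn2 (Quotient.mk (MulAction.orbitRel G Ω) ω)
    obtain ⟨y, hy⟩ := hm (g ω) (r (Quotient.mk (MulAction.orbitRel G Ω) ω))
    rw [hg] at hy
    refine ⟨ρ (g ω) x - y, ?_⟩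
    rw [smul_sub, ← hy, ← map_smul, ← hx, map_sub]
    abel

end Pool.Agent.PFD.D2b.H13
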