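import Pool.Agent.PFD.StmtsD2

/-! Squad PFD, row HGL (helper13): bimodules with a Higman operator modulo `π` are liftable. -/

set_option autoImplicit false

namespace Pool.Agent.PFD.D2.H13

open MulOpposite Pool.Agent.PFD.D2
open Pool.Agent.PFC.B1 (BiM FS CasStmt)

section cg

variable {R N N' : Type} [CommRing R] [AddCommGroup N] [Module R N] [AddCommGroup N'] [Module R N']

/-- congruence modulo `p` -/
def Cg (p : R) (u v : N) : Prop := ∃ n, u - v = p • n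

theorem Cg.of_eq {p : R} {u v : N} (h : u = v) : Cg p u v := ⟨0, by rw [h, sub_self, smul_zero]⟩

theorem Cg.trans {p : R} {u v w : N} (h : Cg p u v) (h' : Cg p v w) : Cg p u w := by
  obtain ⟨n, hn⟩ := h
  obtain ⟨n', hn'⟩ := h'
  refine ⟨n + n', ?_⟩
  rw [smul_add, ← hn, ← hn']
  abel

theorem Cg.symm {p : R} {u v : N} (h : Cg p u v) : Cg p v u := by
  obtain ⟨n, hn⟩ := h
  refine ⟨-n, ?_⟩
  rw [smul_neg, ← hn]
  abel

theorem Cg.map {p : R} {u v : N} (h : Cg p u v) (f : N →ₗ[R] N') : Cg p (f u) (f v) := by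
  obtain ⟨n, hn⟩ := h
  exact ⟨f n, by rw [← map_sub, hn, map_smul]⟩

theorem Cg.sum {p : R} {J : Type} (s : Finset J) {f g : J → N} (h : ∀ j ∈ s, Cg p (f j) (g j)) :
    Cg p (∑ j ∈ s, f j) (∑ j ∈ s, g j) := by
  classical
  induction s using Finset.induction_on with
  | empty => exact Cg.of_eq rfl
  | insert a s ha ih =>
    obtain ⟨n, hn⟩ := ih fun j hj => h j (Finset.mem_insert_of_mem hj)
    obtain ⟨m, hm⟩ := h a (Finset.mem_insert_self a s)
    refine ⟨m + n, ?_⟩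
    rw [Finset.sum_insert ha, Finset.sum_insert ha, smul_add, ← hn, ← hm]
    abel

end cg

section lin

variable {R Γ X N : Type} [CommRing R] [Ring Γ] [Algebra R Γ] [AddCommGroup X] [Module R X]
  [AddCommGroup N] [Module R N]

theorem lm_mul (B : BiM R Γ N) (γ δ : Γ) (z : N) : B.lm (γ * δ) z = B.lm γ (B.lm δ z) := by
  rw [map_mul]; rfl

theorem rm_mul (B : BiM R Γ N) (γ δ : Γ) (z : N) :
    B.rm (op (γ * δ)) z = B.rm (op δ) (B.rm (op γ) z) := by
  rw [op_mul, map_mul]; rfl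

theorem lm_add (B : BiM R Γ N) (γ δ : Γ) (z : N) :
    B.lm (γ + δ) z = B.lm γ z + B.lm δ z := by
  rw [map_add]; rfl

theorem lm_smul (B : BiM R Γ N) (r : R) (γ : Γ) (z : N) :
    B.lm (r • γ) z = r • B.lm γ z := by
  rw [map_smul]; rfl

theorem rm_add (B : BiM R Γ N) (γ δ : Γ) (z : N) :
    B.rm (op (γ + δ)) z = B.rm (op γ) z + B.rm (op δ) z := by
  rw [op_add, map_add]; rfl

theorem rm_smul (B : BiM R Γ N) (r : R) (γ : Γ) (z : N) :
    B.rm (op (r • γ)) z = r • B.rm (op γ) z := by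
  rw [op_smul, map_smul]; rfl

variable {I : Type} [Fintype I] (c : FS R Γ I)

theorem casf {X : Type} [AddCommGroup X] [Module R X] (cas : CasStmt) (f : Γ → Γ → X)
    (h1 : ∀ u u' v, f (u + u') v = f u v + f u' v) (h2 : ∀ (r : R) u v, f (r • u) v = r • f u v)
    (h3 : ∀ u v v', f u (v + v') = f u v + f u v') (h4 : ∀ (r : R) u v, f u (r • v) = r • f u v)
    (γ : Γ) : ∑ i, f (γ * c.b i) (c.b' i) = ∑ i, f (c.b i) (c.b' i * γ) :=
  cas R Γ I X c (LinearMap.mk₂ R f h1 h2 h3 h4) γ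

/-- one term of the average, linear maps -/
def um (BX : BiM R Γ X) (BN : BiM R Γ N) (g : X →ₗ[R] N) (u1 v1 u2 v2 : Γ) (x : X) : N :=
  BN.lm u1 (BN.rm (op v2) (g (BX.lm v1 (BX.rm (op u2) x))))

/-- the average, linear maps -/
def avl (BX : BiM R Γ X) (BN : BiM R Γ N) (g : X →ₗ[R] N) : X →ₗ[R] N where
  toFun := fun x => ∑ i, ∑ l, um BX BN g (c.b i) (c.b' i) (c.b l) (c.b' l) x
  map_add' := by
    intro x y
    simp only [um, map_add, Finset.sum_add_distrib]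
  map_smul' := by
    intro r x
    simp only [um, map_smul, Finset.smul_sum, RingHom.id_apply]

theorem avl_apply (BX : BiM R Γ X) (BN : BiM R Γ N) (g : X →ₗ[R] N) (x : X) :
    avl c BX BN g x = ∑ i, ∑ l, um BX BN g (c.b i) (c.b' i) (c.b l) (c.b' l) x := rfl

theorem um1 (cas : CasStmt) (BX : BiM R Γ X) (BN : BiM R Γ N) (g : X →ₗ[R] N)
    (u2 v2 γ : Γ) (x : X) :
    ∑ i, um BX BN g (γ * c.b i) (c.b' i) u2 v2 x =
      ∑ i, um BX BN g (c.b i) (c.b' i * γ) u2 v2 x := by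
  apply casf c cas (fun u v => um BX BN g u v u2 v2 x)
  · intro u u' v
    simp only [um, lm_add]
  · intro r u v
    simp only [um, lm_smul]
  · intro u v v'
    simp only [um, map_add, LinearMap.add_apply]
  · intro r u v
    simp only [um, map_smul, LinearMap.smul_apply]

theorem um2 (cas : CasStmt) (BX : BiM R Γ X) (BN : BiM R Γ N) (g : X →ₗ[R] N)
    (u1 v1 γ : Γ) (x : X) :
    ∑ l, um BX BN g u1 v1 (γ * c.b l) (c.b' l) x =
      ∑ l, um BX BN g u1 v1 (c.b l) (c.b' l * γ) x := by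
  apply casf c cas (fun u v => um BX BN g u1 v1 u v x)
  · intro u u' v
    simp only [um, rm_add, map_add]
  · intro r u v
    simp only [um, rm_smul, map_smul]
  · intro u v v'
    simp only [um, rm_add, map_add]
  · intro r u v
    simp only [um, rm_smul, map_smul]

theorem avl_hom (cas : CasStmt) (BX : BiM R Γ X) (BN : BiM R Γ N) (g : X →ₗ[R] N) :
    BHom BX BN (avl c BX BN g) := by
  refine ⟨?_, ?_⟩
  · intro γ x
    rw [avl_apply, avl_apply, Finset.sum_comm]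
    rw [Finset.sum_comm (f := fun i l => um BX BN g (c.b i) (c.b' i) (c.b l) (c.b' l) x)]
    simp only [map_sum]
    refine Finset.sum_congr rfl fun l _ => ?_
    have e1 : ∀ i, um BX BN g (c.b i) (c.b' i) (c.b l) (c.b' l) (BX.lm γ x) =
        um BX BN g (c.b i) (c.b' i * γ) (c.b l) (c.b' l) x := by
      intro i
      simp only [um]
      rw [lm_mul, BX.comm γ]
    have e2 : ∀ i, BN.lm γ (um BX BN g (c.b i) (c.b' i) (c.b l) (c.b' l) x) =
        um BX BN g (γ * c.b i) (c.b' i) (c.b l) (c.b' l) x := by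
      intro i
      simp only [um]
      rw [lm_mul]
    simp only [e1, e2]
    exact (um1 c cas BX BN g _ _ γ x).symm
  · intro γ x
    obtain ⟨γ, rfl⟩ := op_surjective γ
    rw [avl_apply, avl_apply]
    simp only [map_sum]
    refine Finset.sum_congr rfl fun i _ => ?_
    have e1 : ∀ l, um BX BN g (c.b i) (c.b' i) (c.b l) (c.b' l) (BX.rm (op γ) x) =
        um BX BN g (c.b i) (c.b' i) (γ * c.b l) (c.b' l) x := by
      intro l
      simp only [um]
      rw [rm_mul]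
    have e2 : ∀ l, BN.rm (op γ) (um BX BN g (c.b i) (c.b' i) (c.b l) (c.b' l) x) =
        um BX BN g (c.b i) (c.b' i) (c.b l) (c.b' l * γ) x := by
      intro l
      simp only [um]
      rw [rm_mul]
      exact (BN.comm _ _ _).symm
    simp only [e1, e2]
    exact um2 c cas BX BN g _ _ γ x

/-- one term of the average -/
def tm (BX : BiM R Γ X) (BN : BiM R Γ N) (β1 : X →ₗ[R] X →ₗ[R] N) (a1 a2 : X →ₗ[R] X)
    (u1 v1 u2 v2 u3 v3 : Γ) (x y : X) : N :=
  BN.lm u1 (BN.rm (op v3)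
    (β1 (a1 (BX.lm v1 (BX.rm (op u2) x))) (a2 (BX.lm v2 (BX.rm (op u3) y)))))

/-- the average -/
def avg (BX : BiM R Γ X) (BN : BiM R Γ N) (β1 : X →ₗ[R] X →ₗ[R] N) (a1 a2 : X →ₗ[R] X) :
    X →ₗ[R] X →ₗ[R] N :=
  LinearMap.mk₂ R (fun x y => ∑ i, ∑ j, ∑ k,
      tm BX BN β1 a1 a2 (c.b i) (c.b' i) (c.b j) (c.b' j) (c.b k) (c.b' k) x y)
    (fun x x' y => by
      simp only [tm, map_add, LinearMap.add_apply, Finset.sum_add_distrib])
    (fun r x y => by
      simp only [tm, map_smul, LinearMap.smul_apply, Finset.smul_sum])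
    (fun x y y' => by
      simp only [tm, map_add, Finset.sum_add_distrib])
    (fun r x y => by
      simp only [tm, map_smul, Finset.smul_sum])

theorem avg_apply (BX : BiM R Γ X) (BN : BiM R Γ N) (β1 : X →ₗ[R] X →ₗ[R] N)
    (a1 a2 : X →ₗ[R] X) (x y : X) :
    avg c BX BN β1 a1 a2 x y = ∑ i, ∑ j, ∑ k,
      tm BX BN β1 a1 a2 (c.b i) (c.b' i) (c.b j) (c.b' j) (c.b k) (c.b' k) x y := rfl

theorem tm1 (cas : CasStmt) (BX : BiM R Γ X) (BN : BiM R Γ N) (β1 : X →ₗ[R] X →ₗ[R] N)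
    (a1 a2 : X →ₗ[R] X) (u2 v2 u3 v3 γ : Γ) (x y : X) :
    ∑ i, tm BX BN β1 a1 a2 (γ * c.b i) (c.b' i) u2 v2 u3 v3 x y =
      ∑ i, tm BX BN β1 a1 a2 (c.b i) (c.b' i * γ) u2 v2 u3 v3 x y := by
  apply casf c cas (fun u v => tm BX BN β1 a1 a2 u v u2 v2 u3 v3 x y)
  · intro u u' v
    simp only [tm, lm_add]
  · intro r u v
    simp only [tm, lm_smul]
  · intro u v v'
    simp only [tm, map_add, LinearMap.add_apply]
  · intro r u v
    simp only [tm, map_smul, LinearMap.smul_apply]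

theorem tm2 (cas : CasStmt) (BX : BiM R Γ X) (BN : BiM R Γ N) (β1 : X →ₗ[R] X →ₗ[R] N)
    (a1 a2 : X →ₗ[R] X) (u1 v1 u3 v3 γ : Γ) (x y : X) :
    ∑ i, tm BX BN β1 a1 a2 u1 v1 (γ * c.b i) (c.b' i) u3 v3 x y =
      ∑ i, tm BX BN β1 a1 a2 u1 v1 (c.b i) (c.b' i * γ) u3 v3 x y := by
  apply casf c cas (fun u v => tm BX BN β1 a1 a2 u1 v1 u v u3 v3 x y)
  · intro u u' v
    simp only [tm, rm_add, map_add, LinearMap.add_apply]
  · intro r u v
    simp only [tm, rm_smul, map_smul, LinearMap.smul_apply]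
  · intro u v v'
    simp only [tm, map_add, LinearMap.add_apply]
  · intro r u v
    simp only [tm, map_smul, LinearMap.smul_apply]

theorem tm3 (cas : CasStmt) (BX : BiM R Γ X) (BN : BiM R Γ N) (β1 : X →ₗ[R] X →ₗ[R] N)
    (a1 a2 : X →ₗ[R] X) (u1 v1 u2 v2 γ : Γ) (x y : X) :
    ∑ i, tm BX BN β1 a1 a2 u1 v1 u2 v2 (γ * c.b i) (c.b' i) x y =
      ∑ i, tm BX BN β1 a1 a2 u1 v1 u2 v2 (c.b i) (c.b' i * γ) x y := by
  apply casf c cas (fun u v => tm BX BN β1 a1 a2 u1 v1 u2 v2 u v x y)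
  · intro u u' v
    simp only [tm, rm_add, map_add]
  · intro r u v
    simp only [tm, rm_smul, map_smul]
  · intro u v v'
    simp only [tm, rm_add, map_add]
  · intro r u v
    simp only [tm, rm_smul, map_smul]

theorem avg_bal (cas : CasStmt) (BX : BiM R Γ X) (BN : BiM R Γ N) (β1 : X →ₗ[R] X →ₗ[R] N)
    (a1 a2 : X →ₗ[R] X) : Bal2 BX BN (avg c BX BN β1 a1 a2) := by
  refine ⟨?_, ?_, ?_⟩
  · intro γ x y
    rw [avg_apply, avg_apply]
    simp only [map_sum]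
    have e1 : ∀ i j k, BN.lm γ (tm BX BN β1 a1 a2 (c.b i) (c.b' i) (c.b j) (c.b' j) (c.b k)
        (c.b' k) x y) =
        tm BX BN β1 a1 a2 (γ * c.b i) (c.b' i) (c.b j) (c.b' j) (c.b k) (c.b' k) x y := by
      intro i j k
      simp only [tm]
      rw [lm_mul]
    have e2 : ∀ i j k, tm BX BN β1 a1 a2 (c.b i) (c.b' i) (c.b j) (c.b' j) (c.b k) (c.b' k)
        (BX.lm γ x) y = tm BX BN β1 a1 a2 (c.b i) (c.b' i * γ) (c.b j) (c.b' j) (c.b k) (c.b' k)
        x y := by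
      intro i j k
      simp only [tm]
      rw [lm_mul, BX.comm γ]
    simp only [e1, e2]
    rw [Finset.sum_comm' (t' := Finset.univ) (s' := fun _ => Finset.univ) (by simp)]
    rw [Finset.sum_comm' (t' := Finset.univ) (s' := fun _ => Finset.univ)
      (s := Finset.univ) (t := fun _ => Finset.univ)
      (f := fun i j => ∑ k, tm BX BN β1 a1 a2 (γ * c.b i) (c.b' i) (c.b j) (c.b' j) (c.b k)
        (c.b' k) x y) (by simp)]
    refine Finset.sum_congr rfl fun j _ => ?_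
    rw [Finset.sum_comm]
    rw [Finset.sum_comm (f := fun i k => tm BX BN β1 a1 a2 (γ * c.b i) (c.b' i) (c.b j) (c.b' j)
      (c.b k) (c.b' k) x y)]
    refine Finset.sum_congr rfl fun k _ => ?_
    exact (tm1 c cas BX BN β1 a1 a2 _ _ _ _ γ x y).symm
  · intro γ x y
    rw [avg_apply, avg_apply]
    refine Finset.sum_congr rfl fun i _ => ?_
    rw [Finset.sum_comm]
    rw [Finset.sum_comm (f := fun j k => tm BX BN β1 a1 a2 (c.b i) (c.b' i) (c.b j) (c.b' j)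
      (c.b k) (c.b' k) x (BX.lm γ y))]
    refine Finset.sum_congr rfl fun k _ => ?_
    have e1 : ∀ j, tm BX BN β1 a1 a2 (c.b i) (c.b' i) (c.b j) (c.b' j) (c.b k) (c.b' k)
        (BX.rm (op γ) x) y = tm BX BN β1 a1 a2 (c.b i) (c.b' i) (γ * c.b j) (c.b' j) (c.b k)
        (c.b' k) x y := by
      intro j
      simp only [tm]
      rw [rm_mul]
    have e2 : ∀ j, tm BX BN β1 a1 a2 (c.b i) (c.b' i) (c.b j) (c.b' j) (c.b k) (c.b' k)
        x (BX.lm γ y) = tm BX BN β1 a1 a2 (c.b i) (c.b' i) (c.b j) (c.b' j * γ) (c.b k) (c.b' k)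
        x y := by
      intro j
      simp only [tm]
      rw [lm_mul, BX.comm γ]
    simp only [e1, e2]
    exact tm2 c cas BX BN β1 a1 a2 _ _ _ _ γ x y
  · intro γ x y
    obtain ⟨γ, rfl⟩ := op_surjective γ
    rw [avg_apply, avg_apply]
    simp only [map_sum]
    refine Finset.sum_congr rfl fun i _ => ?_
    refine Finset.sum_congr rfl fun j _ => ?_
    have e1 : ∀ k, tm BX BN β1 a1 a2 (c.b i) (c.b' i) (c.b j) (c.b' j) (c.b k) (c.b' k)
        x (BX.rm (op γ) y) = tm BX BN β1 a1 a2 (c.b i) (c.b' i) (c.b j) (c.b' j) (γ * c.b k)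
        (c.b' k) x y := by
      intro k
      simp only [tm]
      rw [rm_mul]
    have e2 : ∀ k, BN.rm (op γ) (tm BX BN β1 a1 a2 (c.b i) (c.b' i) (c.b j) (c.b' j) (c.b k)
        (c.b' k) x y) =
        tm BX BN β1 a1 a2 (c.b i) (c.b' i) (c.b j) (c.b' j) (c.b k) (c.b' k * γ) x y := by
      intro k
      simp only [tm]
      rw [rm_mul]
      exact (BN.comm _ _ _).symm
    simp only [e1, e2]
    exact tm3 c cas BX BN β1 a1 a2 _ _ _ _ γ x y

/-- the Higman condition modulo `p` -/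
def Hig (p : R) (BX : BiM R Γ X) (a : X →ₗ[R] X) : Prop :=
  ∀ x, Cg p (∑ i, ∑ l, BX.lm (c.b i) (BX.rm (op (c.b' l))
      (a (BX.lm (c.b' i) (BX.rm (op (c.b l)) x))))) x

theorem lif1 (cas : CasStmt) (p : R) (BX : BiM R Γ X) (BN : BiM R Γ N) (a : X →ₗ[R] X)
    (ha : Hig c p BX a) : Lif1 p BX BN := by
  intro g hg
  refine ⟨avl c BX BN (g ∘ₗ a), avl_hom c cas BX BN _, fun x => ?_⟩
  have hl : ∀ γ x, Cg p (g (BX.lm γ x)) (BN.lm γ (g x)) := hg.1
  have hr : ∀ γ x, Cg p (g (BX.rm γ x)) (BN.rm γ (g x)) := hg.2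
  show Cg p _ _
  refine Cg.trans ?_ ((ha x).map g)
  rw [avl_apply, map_sum]
  refine Cg.sum _ fun i _ => ?_
  rw [map_sum]
  refine Cg.sum _ fun l _ => ?_
  refine Cg.trans ?_ (hl _ _).symm
  refine Cg.map ?_ (BN.lm (c.b i))
  exact (hr _ _).symm

theorem lif2 (cas : CasStmt) (p : R) (BX : BiM R Γ X) (BN : BiM R Γ N) (a : X →ₗ[R] X)
    (ha : Hig c p BX a) : Lif2 p BX BN := by
  intro β hβ
  obtain ⟨h1, h2, h3⟩ := hβ
  have hl : ∀ γ x y, Cg p (β (BX.lm γ x) y) (BN.lm γ (β x y)) := h1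
  have hm : ∀ γ x y, Cg p (β (BX.rm (op γ) x) y) (β x (BX.lm γ y)) := h2
  have hr : ∀ γ x y, Cg p (β x (BX.rm γ y)) (BN.rm γ (β x y)) := h3
  let a2 : X →ₗ[R] X := ∑ l, (BX.lm (c.b l)) ∘ₗ a ∘ₗ (BX.lm (c.b' l))
  have ha2 : ∀ z, a2 z = ∑ l, BX.lm (c.b l) (a (BX.lm (c.b' l) z)) := by
    intro z
    show (∑ l, (BX.lm (c.b l)) ∘ₗ a ∘ₗ (BX.lm (c.b' l))) z = _
    rw [LinearMap.sum_apply]; rfl
  refine ⟨avg c BX BN β a a2, avg_bal c cas BX BN β a a2, ?_⟩
  intro x y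
  show Cg p _ _
  rw [avg_apply]
  have e1 : ∀ i j k, Cg p (tm BX BN β a a2 (c.b i) (c.b' i) (c.b j) (c.b' j) (c.b k) (c.b' k)
      x y) (β (BX.lm (c.b i) (a (BX.lm (c.b' i) (BX.rm (op (c.b j)) x))))
        (BX.rm (op (c.b' k)) (a2 (BX.rm (op (c.b k)) (BX.lm (c.b' j) y))))) := by
    intro i j k
    refine Cg.trans ?_ (hl _ _ _).symm
    refine Cg.map ?_ (BN.lm (c.b i))
    rw [← BX.comm (c.b' j)]
    exact (hr _ _ _).symm
  refine Cg.trans (Cg.sum _ fun i _ => Cg.sum _ fun j _ => Cg.sum _ fun k _ => e1 i j k) ?_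
  have e2 : ∀ j, ∑ i, ∑ k, β (BX.lm (c.b i) (a (BX.lm (c.b' i) (BX.rm (op (c.b j)) x))))
        (BX.rm (op (c.b' k)) (a2 (BX.rm (op (c.b k)) (BX.lm (c.b' j) y)))) =
      β (∑ i, BX.lm (c.b i) (a (BX.lm (c.b' i) (BX.rm (op (c.b j)) x))))
        (∑ k, BX.rm (op (c.b' k)) (a2 (BX.rm (op (c.b k)) (BX.lm (c.b' j) y)))) := by
    intro j
    rw [Finset.sum_comm]
    simp only [map_sum, LinearMap.sum_apply]
  rw [Finset.sum_comm]
  simp only [e2]
  have e3 : ∀ z, Cg p (∑ k, BX.rm (op (c.b' k)) (a2 (BX.rm (op (c.b k)) z))) z := by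
    intro z
    refine Cg.trans (Cg.of_eq ?_) (ha z)
    rw [Finset.sum_comm]
    refine Finset.sum_congr rfl fun k _ => ?_
    rw [ha2, map_sum]
    refine Finset.sum_congr rfl fun l _ => ?_
    exact (BX.comm _ _ _).symm
  have e4 : ∀ j w, Cg p
      (β w (∑ k, BX.rm (op (c.b' k)) (a2 (BX.rm (op (c.b k)) (BX.lm (c.b' j) y)))))
      (β (BX.rm (op (c.b' j)) w) y) := by
    intro j w
    exact ((e3 _).map (β w)).trans (hm _ _ _).symm
  refine Cg.trans (Cg.sum _ fun j _ => e4 j _) ?_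
  rw [← LinearMap.sum_apply, ← map_sum]
  refine Cg.map (f := β.flip y) ?_
  refine Cg.trans (Cg.of_eq ?_) (ha x)
  rw [Finset.sum_comm]
  refine Finset.sum_congr rfl fun j _ => ?_
  rw [map_sum]
  refine Finset.sum_congr rfl fun i _ => ?_
  exact (BX.comm _ _ _).symm

end lin

theorem hgl (cas : CasStmt) : HglStmt := by
  intro R F Γ X I _ _ _ _ c _ _ _ d _ _ BX a ha
  exact ⟨lif1 d cas c.π BX BX a ha, lif2 d cas c.π BX BX a ha, lif2 d cas c.π BX (regB R Γ) a ha⟩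

end Pool.Agent.PFD.D2.H13
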