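import Pool.Agent.PFD.D1.Key

/-! Squad PFD, row TZB (helper13): a trace on the centre of `B`. -/

noncomputable section

namespace Pool.Agent.PFD.H13

open Pool.Agent.PFC.B1 Pool.Agent.PFD

theorem tzb (htrf : TrfStmt) : TzbStmt := by
  classical
  intro K B A I J N _ _ _ _ _ _ _ _ _ D z ps h hz hh
  have hbil : ∀ b : B, Bil K (fun u v : B => u * b * v) := fun b =>
    ⟨fun a a' c => by rw [add_mul, add_mul], fun a c c' => by rw [mul_add],
      fun r a c => by rw [smul_mul_assoc, smul_mul_assoc], fun r a c => by rw [mul_smul_comm]⟩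
  have hcen : ∀ b : B, z * ∑ i, D.c.b i * b * D.c.b' i ∈ Subalgebra.center K B := by
    intro b
    rw [Subalgebra.mem_center_iff]
    intro a
    have h1 : ∑ i, a * D.c.b i * b * D.c.b' i = ∑ i, D.c.b i * b * (D.c.b' i * a) :=
      D.m1 (hbil b) a
    calc a * (z * ∑ i, D.c.b i * b * D.c.b' i)
        = z * ∑ i, a * D.c.b i * b * D.c.b' i := by
          rw [← mul_assoc, ← hz a, mul_assoc, Finset.mul_sum]
          congr 1
          exact Finset.sum_congr rfl fun i _ => by rw [mul_assoc, mul_assoc, mul_assoc]
      _ = z * (∑ i, D.c.b i * b * D.c.b' i) * a := by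
          rw [h1, mul_assoc, Finset.sum_mul]
          congr 1
          exact Finset.sum_congr rfl fun i _ => by rw [mul_assoc (D.c.b i * b)]
  let g : B →ₗ[K] Subalgebra.center K B :=
    { toFun := fun b => ⟨z * ∑ i, D.c.b i * b * D.c.b' i, hcen b⟩
      map_add' := by
        intro b b'
        refine Subtype.ext ?_
        show z * ∑ i, D.c.b i * (b + b') * D.c.b' i =
          z * (∑ i, D.c.b i * b * D.c.b' i) + z * (∑ i, D.c.b i * b' * D.c.b' i)
        rw [← mul_add, ← Finset.sum_add_distrib]
        congr 1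
        exact Finset.sum_congr rfl fun i _ => by rw [mul_add, add_mul]
      map_smul' := by
        intro r b
        refine Subtype.ext ?_
        show z * ∑ i, D.c.b i * (r • b) * D.c.b' i = r • (z * ∑ i, D.c.b i * b * D.c.b' i)
        rw [← mul_smul_comm, Finset.smul_sum]
        congr 1
        exact Finset.sum_congr rfl fun i _ => by rw [mul_smul_comm, smul_mul_assoc] }
  let inc : Subalgebra.center K B →ₗ[K] B := (Subalgebra.center K B).val.toLinearMap
  have h1 : h = (g ∘ₗ ps) ∘ₗ inc := by
    refine LinearMap.ext fun w => Subtype.ext ?_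
    exact hh w
  haveI : Module.Finite K (Subalgebra.center K B) :=
    inferInstanceAs (Module.Finite K (Subalgebra.toSubmodule (Subalgebra.center K B)))
  rw [h1, LinearMap.trace_comp_comm', htrf K B I D.c]
  refine Finset.sum_congr rfl fun l _ => ?_
  show D.c.lam (D.c.b' l * (z * ∑ i, D.c.b i * ps (D.c.b l) * D.c.b' i)) = _
  rw [Finset.mul_sum, Finset.mul_sum, map_sum]

end Pool.Agent.PFD.H13
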